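import Pool.Agent.QUD.StmtsL

/-!
Row SEG of squad QUD (MP_5b0138_an).
-/

set_option autoImplicit false

namespace Pool.Agent.QUD.H53

open MeasureTheory Complex Filter Topology Pool.Agent.H62T
open Pool.Agent.H16F (Sublin)
open Pool.Agent.AEU Pool.Agent.XQ

theorem cont_ip (z : ℂ) : Continuous fun x : ℂ => ip z x := by
  unfold ip
  exact (continuous_const.mul Complex.continuous_re).add (continuous_const.mul Complex.continuous_im)

theorem seg (vxx : VxxStatement) (hul : HulStatement) (per : PerStatement)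
    (lamS : LamStatement) (mixS : MixStatement) : SegStmt := by
  intro X hX a ha a' ha'
  obtain ⟨-, -, -, -, -, -, -, -, hcpt, -, hsup⟩ := vxx X hX
  have hA : ∀ s ∈ X, IsCompact (Cl X ∩ {x | ip s.1 x = s.2}) ∧
      (Cl X ∩ {x | ip s.1 x = s.2}).Nonempty := by
    intro s hs
    refine ⟨hcpt.inter_right (isClosed_eq (cont_ip s.1) continuous_const), ?_⟩
    obtain ⟨x, hx, hx'⟩ := hX.side s hs
    refine ⟨x, ?_, hx⟩
    intro t ht
    by_cases hts : t = s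
    · rw [hts]
      exact le_of_eq hx
    · exact le_of_lt (hx' t ht hts)
  obtain ⟨hc, hn⟩ := hA a ha
  obtain ⟨hc', hn'⟩ := hA a' ha'
  obtain ⟨p, hp, hmin⟩ := (hc.prod hc').exists_isMinOn (hn.prod hn')
    (f := fun p : ℂ × ℂ => ‖p.1 - p.2‖) ((continuous_fst.sub continuous_snd).norm.continuousOn)
  obtain ⟨⟨hx1, hx2⟩, ⟨hy1, hy2⟩⟩ := hp
  have hm : ∀ x' ∈ Cl X, ∀ y' ∈ Cl X, ip a.1 x' = a.2 → ip a'.1 y' = a'.2 →
      ‖p.1 - p.2‖ ≤ ‖x' - y'‖ := by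
    intro x' hx' y' hy' h1 h2
    exact hmin (a := (x', y')) ⟨⟨hx', h1⟩, ⟨hy', h2⟩⟩
  have hmem : ∀ i, (![p.1, p.2] : Fin (1 + 1) → ℂ) i ∈ Cl X := by
    intro i
    fin_cases i
    · exact hx1
    · exact hy1
  obtain ⟨hfit, htouch⟩ := (mixS X).2.2 1 ![p.1, p.2] hmem
  refine ⟨p.1, hx1, p.2, hy1, hx2, hy2, hm, (hul 1 ![p.1, p.2]).1, hfit,
    (htouch a).2 ⟨ha, 0, hx2⟩, (htouch a').2 ⟨ha', 1, hy2⟩, per.1 p.1 p.2, ?_⟩
  intro h hh hF hta hta'
  obtain ⟨x', hIx, hCx, hex⟩ := hsup h hh hF a hta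
  obtain ⟨y', hIy, hCy, hey⟩ := hsup h hh hF a' hta'
  have hle : ∀ w, hf ![x', y'] w ≤ h w := by
    apply (hul 1 ![x', y']).2.2.2.1 h
    intro i
    fin_cases i
    · exact hIx
    · exact hIy
  have h1 : lam (hf ![x', y']) ≤ lam h :=
    (lamS.2.1 (hf ![x', y']) h (hul 1 ![x', y']).1 hh hle).1
  have h2 : lam (hf ![x', y']) = 2 * ‖x' - y'‖ := per.1 x' y'
  have h3 := hm x' hCx y' hCy hex hey
  linarith

end Pool.Agent.QUD.H53
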